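import Pool.Agent.H84.FD.S
import Pool.Agent.H42.K2.Cel

/-! MP_1f2761, k = 2: rows RSF and RCE (helper23). -/

set_option linter.all false

namespace Pool.FD
open Finset Pool.K2 MeasureTheory

theorem rsf : RSFStmt := by
  intro r p P hP Om k y s1 s2
  have hPr : (P : ℝ) ≠ 0 := by exact_mod_cast hP.ne'
  have key : ∀ n a : ℕ, (((p n a * omT P Om (s1 + y * n / P) (s2 + y * a / P) : ℝ)) : ℂ) *
      ex (k.1 * (P * s1 + y * n) + k.2 * (P * s2 + y * a)) =
      ∑ m ∈ bx P, (omh P Om m.1 m.2 * ((p n a : ℂ) *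
        ex (n * (y * ((m.1 + k.1 * P : ℝ) / P)) + a * (y * ((m.2 + k.2 * P : ℝ) / P))))) *
        ex ((m.1 + k.1 * P) * s1 + (m.2 + k.2 * P) * s2) := by
    intro n a
    rw [Complex.ofReal_mul, omT_eq hP Om, ← Finset.sum_product', Finset.mul_sum, Finset.sum_mul]
    refine Finset.sum_congr rfl (fun m _ => ?_)
    have e1 : ex (m.1 * (s1 + y * n / P) + m.2 * (s2 + y * a / P)) *
        ex (k.1 * (P * s1 + y * n) + k.2 * (P * s2 + y * a)) =
        ex (n * (y * ((m.1 + k.1 * P : ℝ) / P)) + a * (y * ((m.2 + k.2 * P : ℝ) / P))) *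
        ex ((m.1 + k.1 * P) * s1 + (m.2 + k.2 * P) * s2) := by
      rw [← ex_add, ← ex_add]
      congr 1
      field_simp
      ring
    calc (p n a : ℂ) * (omh P Om m.1 m.2 * ex (m.1 * (s1 + y * n / P) + m.2 * (s2 + y * a / P))) *
          ex (k.1 * (P * s1 + y * n) + k.2 * (P * s2 + y * a))
        = (p n a : ℂ) * omh P Om m.1 m.2 * (ex (m.1 * (s1 + y * n / P) + m.2 * (s2 + y * a / P)) *
          ex (k.1 * (P * s1 + y * n) + k.2 * (P * s2 + y * a))) := by ring
      _ = _ := by rw [e1]; ring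
  have h1 : ∀ m ∈ bx P, Rc r p P Om k y m * ex ((m.1 + k.1 * P) * s1 + (m.2 + k.2 * P) * s2) =
      ∑ n ∈ range (2 ^ r), ∑ a ∈ range (2 ^ r), (omh P Om m.1 m.2 * ((p n a : ℂ) *
        ex (n * (y * ((m.1 + k.1 * P : ℝ) / P)) + a * (y * ((m.2 + k.2 * P : ℝ) / P))))) *
        ex ((m.1 + k.1 * P) * s1 + (m.2 + k.2 * P) * s2) := by
    intro m _
    unfold Rc phi
    rw [Finset.mul_sum, Finset.sum_mul]
    refine Finset.sum_congr rfl (fun n _ => ?_)
    rw [Finset.mul_sum, Finset.sum_mul]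
  rw [Finset.sum_congr rfl h1]
  unfold Rs
  simp only [key]
  rw [Finset.sum_congr rfl (fun n _ => Finset.sum_comm)]
  exact Finset.sum_comm

theorem rce (hR : RSFStmt) (hC : CSPStmt) : RCEStmt := by
  intro r p P hP Om k y K hK x hx
  have hP1 : (1 : ℝ) ≤ P := by exact_mod_cast hP
  have hnm : 0 ≤ nm k := le_trans (abs_nonneg _) (le_max_left _ _)
  have hPK : (P : ℝ) ≤ K := le_trans (by nlinarith) hK
  have hK0 : 0 < K := by
    have : P ≤ K := by exact_mod_cast hPK
    omega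
  set g : ℤ × ℤ → ℤ × ℤ := fun m => (m.1 + k.1 * P, m.2 + k.2 * P) with hg
  have hinj : Function.Injective g := by
    intro a b hab
    simp only [hg, Prod.mk.injEq] at hab
    exact Prod.ext (by linarith [hab.1]) (by linarith [hab.2])
  set c : ℤ × ℤ → ℂ := fun m' => if (m'.1 - k.1 * P, m'.2 - k.2 * P) ∈ bx P then
    Rc r p P Om k y (m'.1 - k.1 * P, m'.2 - k.2 * P) else 0 with hc
  have hcg : ∀ m ∈ bx P, c (g m) = Rc r p P Om k y m := by
    intro m hm
    simp only [hc, hg, add_sub_cancel_right, hm, if_true]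
  have hsub : (bx P).image g ⊆ bx K := by
    intro m' hm'
    obtain ⟨m, hm, rfl⟩ := Finset.mem_image.1 hm'
    simp only [bx, Finset.mem_product, Finset.mem_Ioo] at hm
    have a1 : |(k.1 : ℝ)| ≤ nm k := le_max_left _ _
    have a2 : |(k.2 : ℝ)| ≤ nm k := le_max_right _ _
    have b1 := abs_le.1 a1
    have b2 := abs_le.1 a2
    have c1 : (-(P : ℝ)) < m.1 := by exact_mod_cast hm.1.1
    have c2 : (m.1 : ℝ) < P := by exact_mod_cast hm.1.2
    have c3 : (-(P : ℝ)) < m.2 := by exact_mod_cast hm.2.1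
    have c4 : (m.2 : ℝ) < P := by exact_mod_cast hm.2.2
    have hP0 : (0 : ℝ) ≤ P := by linarith
    have d1 := mul_le_mul_of_nonneg_right b1.1 hP0
    have d2 := mul_le_mul_of_nonneg_right b1.2 hP0
    have d3 := mul_le_mul_of_nonneg_right b2.1 hP0
    have d4 := mul_le_mul_of_nonneg_right b2.2 hP0
    have e1 : (-(K : ℝ)) < m.1 + k.1 * P := by nlinarith
    have e2 : (m.1 : ℝ) + k.1 * P < K := by nlinarith
    have e3 : (-(K : ℝ)) < m.2 + k.2 * P := by nlinarith
    have e4 : (m.2 : ℝ) + k.2 * P < K := by nlinarith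
    simp only [hg, bx, Finset.mem_product, Finset.mem_Ioo]
    exact ⟨⟨by exact_mod_cast e1, by exact_mod_cast e2⟩, ⟨by exact_mod_cast e3, by exact_mod_cast e4⟩⟩
  have hzero : ∀ m' ∈ bx K, m' ∉ (bx P).image g → c m' = 0 := by
    intro m' _ hm'
    simp only [hc]
    rw [if_neg]
    intro h
    apply hm'
    refine Finset.mem_image.2 ⟨_, h, ?_⟩
    simp only [hg, sub_add_cancel]
  have htp : ∀ x1 x2 : ℝ, tp K c x1 x2 = Rs r p P Om k y x1 x2 := by
    intro x1 x2
    rw [hR r p P hP Om k y x1 x2]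
    unfold tp
    rw [← Finset.sum_subset hsub (fun m' h1 h2 => by rw [hzero m' h1 h2, zero_mul]),
      Finset.sum_image (fun a _ b _ h => hinj h)]
    refine Finset.sum_congr rfl (fun m hm => ?_)
    rw [hcg m hm]
    simp only [hg]
    push_cast
    rfl
  have hF : ∑ m' ∈ bx K, ‖c m'‖ ^ 2 = Fk r p P Om k y := by
    unfold Fk
    rw [← Finset.sum_subset hsub (fun m' h1 h2 => by rw [hzero m' h1 h2]; simp),
      Finset.sum_image (fun a _ b _ h => hinj h)]
    exact Finset.sum_congr rfl (fun m hm => by rw [hcg m hm])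
  have h := hC K hK0 c x hx
  rw [hF] at h
  simp only [htp] at h
  exact h

end Pool.FD
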