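import Pool.Agent.H24.FD.P4

/-! MP_1f2761, k = 2: row ZZF (helper23). -/

set_option linter.all false

open Finset Pool.K2 Pool.FD MeasureTheory

namespace Pool.Agent.H24.FD

theorem zzf_aux {ι : Type} [Fintype ι] (c : ℝ) (R : Finset ℕ) (f : ℕ → ι → ℝ) (F : ℕ → ℝ) :
    ∑ a ∈ R, (c * ∑ s, f a s) * F a = c * ∑ s, ∑ a ∈ R, f a s * F a := by
  rw [Finset.sum_comm, Finset.mul_sum]
  refine Finset.sum_congr rfl (fun a _ => ?_)
  rw [mul_assoc, Finset.sum_mul]

theorem zzf (hV : VALSStmt) (hZ : GLZStmt) : ZZFStmt := by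
  classical
  intro q m g t₁ l k G Jt J wm hq hJ hG x S
  have hom : ∀ z, omW q m g t₁ wm (l * k) G Jt J z = omK q m g t₁ wm (tt q (l * k) J) z := by
    intro z
    unfold omW
    rw [if_neg (not_lt.2 hG)]
  -- the digits
  have hd : ∀ ν n : ℕ, fl (q ^ tt q (l * k) J)
      (((q ^ tt q (l * k) J : ℕ) : ℝ) * (ν * yy q J) + yy q (J - l * k) * n) =
      (2 ^ (l * k) * ν + n) * 2 ^ (J - l * k) / q ^ II q (J - l * k) % q ^ tt q (l * k) J := by
    intro ν n
    rw [(hZ q (l * k) J hq hJ ν n).2.1]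
    push_cast
    rfl
  unfold Zt Zf omv
  simp only [hd]
  unfold kc ZZ
  simp only [hom]
  rw [zzf_aux]
  congr 1
  refine Finset.sum_congr rfl (fun S' _ => ?_)
  by_cases h : VN S' = VN S
  · rw [if_pos h, Finset.sum_eq_single (VA S')]
    · rw [if_pos ⟨h, rfl⟩]
      simp only [zz, app, h]
    · intro a _ ha
      rw [if_neg (fun hh => ha hh.2.symm), zero_mul]
    · intro hn
      exact absurd (mem_range.2 (hV l k S').2.1) hn
  · rw [if_neg h]
    symm
    refine Finset.sum_eq_zero (fun a _ => ?_)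
    rw [if_neg (fun hh => h hh.1), zero_mul]

end Pool.Agent.H24.FD
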